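import Mathlib

/-!
# Link palettes for temporal graphs

Four colours are the elements of `Bool × Bool`.  A state records how the colours used during one
time step are restricted: for every vertex a set of allowed colours, valid at both ends of the step.
-/

namespace Pool.Agent.Q208.TC

/-- The second affine functional of a palette, `c.2 + m * c.1 + k`. -/
def beta (m k : Bool) (d : Bool × Bool) : Bool := xor (xor d.2 (m && d.1)) k

/-- The colours allowed at one vertex: outside the flipped set `d.1 = sg`, inside it
`beta = ! sg`, the two special vertices have one colour each. -/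
def okb (sg f p x s m k : Bool) (d : Bool × Bool) : Bool :=
  (f || (d.1 == sg)) && (!f || (beta m k d == !sg)) &&
  (!p || (d.1 == s && beta m k d == s)) && (!x || (d.1 == !s && beta m k d == s))

/-- A state: the bipartition `sg` after the step, the flipped set `F`, the special vertices `P`
and `X`, the parity `s`, and the functional `(m, k)`. -/
structure St (V : Type*) where
  sg : V → Bool
  F : V → Bool
  P : V → Bool
  X : V → Bool
  s : Bool
  m : Bool
  k : Bool

variable {V : Type*}

/-- The colours allowed at the vertex `z`. -/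
def St.ok (S : St V) (z : V) (d : Bool × Bool) : Bool :=
  okb (S.sg z) (S.F z) (S.P z) (S.X z) S.s S.m S.k d

/-- The state is consistent with the snapshot `G` at the end of the step. -/
structure Valid (G : SimpleGraph V) (S : St V) : Prop where
  proper : ∀ x y, G.Adj x y → S.sg x ≠ S.sg y
  uniq : ∀ y z y' z', G.Adj y z → S.F y = false → S.F z = true →
    G.Adj y' z' → S.F y' = false → S.F z' = true → y = y' ∧ z = z'
  hP : ∀ z, S.P z = true → S.F z = false ∧ S.sg z = S.s
  hPs : ∀ y z, S.P y = true → S.P z = true → y = z
  hX : ∀ z, S.X z = true → S.sg z = !S.s ∧ ∃ w, G.Adj z w ∧ S.F w = !(S.F z)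

/-- The colours allowed by `S` at adjacent vertices of `G` are disjoint. -/
def Disj (G : SimpleGraph V) (S : St V) : Prop :=
  ∀ x y, G.Adj x y → ∀ d, S.ok x d = true → S.ok y d = true → False

/-- Pointwise compatibility of two states. -/
def Comp (S S' : St V) : Prop := ∀ z, ∃ d, S.ok z d = true ∧ S'.ok z d = true

/-! ### Pointwise lemmas -/

/-- Exhaustive search over the four colours. -/
def ex (f : Bool × Bool → Bool) : Bool :=
  f (false, false) || f (false, true) || f (true, false) || f (true, true)

theorem ex_spec {f : Bool × Bool → Bool} (h : ex f = true) : ∃ d, f d = true := by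
  unfold ex at h
  simp only [Bool.or_eq_true] at h
  rcases h with ((h | h) | h) | h
  exacts [⟨_, h⟩, ⟨_, h⟩, ⟨_, h⟩, ⟨_, h⟩]

/-- Basic facts about the old state at a vertex. -/
def cOld (sg f p x s : Bool) : Bool := (!p || (!f && (sg == s))) && (!x || (sg == !s))

/-- Basic facts about the new state at a vertex (`sg` is the old bipartition). -/
def cNew (sg f p x s : Bool) : Bool :=
  (!p || (!f && (sg == s))) && (!(x && f) || (sg == s)) && (!(x && !f) || (sg == !s))

/-- conditions of type E, delta 0 -/
def cE0 (f p x f' p' x' : Bool) : Bool :=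
  !(p && f') && !(p && p') && (!x' || (!x && (f == f')))

/-- conditions of type E, delta 1 -/
def cE1 (f p x f' p' x' : Bool) : Bool :=
  !(f && f') && !(x && f') && !(x && p') && (!x' || (!f' && !p)) && !(p' && f)

/-- conditions of type N -/
def cN (sg f p x f' p' x' dl : Bool) : Bool :=
  (!(p && f') || (dl == !sg)) && (!(x && f') || (dl == sg)) &&
  (!(p' && f) || (dl == sg)) && (!(x' && !f' && f) || (dl == !sg)) &&
  (!(x' && f') || (f && (dl == !sg))) &&
  (!(p && p') || (dl == !sg)) && (!(p && x' && !f') || (dl == sg)) &&
  (!(x && p') || (dl == sg)) && (!(x && x' && !f') || (dl == !sg))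

theorem pt_Z : ∀ sg f p x s m k s' : Bool,
    (!(cOld sg f p x s) ||
      ex (fun d => okb sg f p x s m k d && okb sg false false false s' m k d)) = true := by
  decide

theorem pt_E0 : ∀ sg f p x s m k f' p' x' s' : Bool,
    (!(cOld sg f p x s && cNew sg f' p' x' s' && cE0 f p x f' p' x') ||
      ex (fun d => okb sg f p x s m k d && okb (xor sg f') f' p' x' s' m (!k) d)) = true := by
  decide

theorem pt_E1 : ∀ sg f p x s m k f' p' x' s' : Bool,
    (!(cOld sg f p x s && cNew sg f' p' x' s' && cE1 f p x f' p' x') ||
      ex (fun d => okb sg f p x s m k d && okb (xor sg f') f' p' x' s' m k d)) = true := by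
  decide

theorem pt_N : ∀ sg f p x s m k f' p' x' s' dl : Bool,
    (!(cOld sg f p x s && cNew sg f' p' x' s' && cN sg f p x f' p' x' dl) ||
      ex (fun d => okb sg f p x s m k d &&
        okb (xor sg f') f' p' x' s' (!m) (xor k (!dl)) d)) = true := by
  decide

theorem cOld_of {sg f p x s : Bool} (h1 : p = true → f = false ∧ sg = s)
    (h2 : x = true → sg = !s) : cOld sg f p x s = true := by
  revert h1 h2
  unfold cOld
  cases sg <;> cases f <;> cases p <;> cases x <;> cases s <;> decide

theorem cNew_of {sg f p x s : Bool} (h1 : p = true → f = false ∧ sg = s)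
    (h2 : x = true → f = true → sg = s) (h3 : x = true → f = false → sg = !s) :
    cNew sg f p x s = true := by
  revert h1 h2 h3
  unfold cNew
  cases sg <;> cases f <;> cases p <;> cases x <;> cases s <;> decide

theorem cE0_of {f p x f' p' x' : Bool} (h1 : p = true → f' = true → False)
    (h2 : p = true → p' = true → False) (h3 : x' = true → x = false ∧ f = f') :
    cE0 f p x f' p' x' = true := by
  revert h1 h2 h3
  unfold cE0
  cases f <;> cases p <;> cases x <;> cases f' <;> cases p' <;> cases x' <;> decide

theorem cE1_of {f p x f' p' x' : Bool} (h1 : f = true → f' = true → False)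
    (h2 : x = true → f' = true → False) (h3 : x = true → p' = true → False)
    (h4 : x' = true → f' = false ∧ p = false) (h5 : p' = true → f = true → False) :
    cE1 f p x f' p' x' = true := by
  cases f <;> cases p <;> cases x <;> cases f' <;> cases p' <;> cases x' <;> simp_all [cE1]

theorem cN_of {sg f p x f' p' x' dl : Bool}
    (h1 : p = true → f' = true → dl = !sg) (h2 : x = true → f' = true → dl = sg)
    (h3 : p' = true → f = true → dl = sg)
    (h4 : x' = true → f' = false → f = true → dl = !sg)
    (h5 : x' = true → f' = true → f = true ∧ dl = !sg)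
    (h6 : p = true → p' = true → dl = !sg) (h7 : p = true → x' = true → f' = false → dl = sg)
    (h8 : x = true → p' = true → dl = sg)
    (h9 : x = true → x' = true → f' = false → dl = !sg) :
    cN sg f p x f' p' x' dl = true := by
  have e1 : (!(p && f') || (dl == !sg)) = true := by
    cases p <;> cases f' <;> simp_all
  have e2 : (!(x && f') || (dl == sg)) = true := by
    cases x <;> cases f' <;> simp_all
  have e3 : (!(p' && f) || (dl == sg)) = true := by
    cases p' <;> cases f <;> simp_all
  have e4 : (!(x' && !f' && f) || (dl == !sg)) = true := by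
    cases x' <;> cases f' <;> cases f <;> simp_all
  have e5 : (!(x' && f') || (f && (dl == !sg))) = true := by
    cases x' <;> cases f' <;> cases f <;> simp_all
  have e6 : (!(p && p') || (dl == !sg)) = true := by
    cases p <;> cases p' <;> simp_all
  have e7 : (!(p && x' && !f') || (dl == sg)) = true := by
    cases p <;> cases x' <;> cases f' <;> simp_all
  have e8 : (!(x && p') || (dl == sg)) = true := by
    cases x <;> cases p' <;> simp_all
  have e9 : (!(x && x' && !f') || (dl == !sg)) = true := by
    cases x <;> cases x' <;> cases f' <;> simp_all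
  simp only [cN, e1, e2, e3, e4, e5, e6, e7, e8, e9, Bool.and_self]

/-! ### New states -/

/-- The state obtained by flipping `F`. -/
def newSt (sg F P X : V → Bool) (s m k : Bool) : St V :=
  ⟨fun z => xor (sg z) (F z), F, P, X, s, m, k⟩

/-- Data of a step from `G` to `G'` in which the new edge `u v` would join equal sides. -/
structure LinkData (G G' : SimpleGraph V) (sg F P X : V → Bool) (s : Bool) (u v : V) : Prop where
  proper : ∀ x y, G.Adj x y → sg x ≠ sg y
  common : ∀ x y, G.Adj x y → G'.Adj x y → F x = F y
  newE : ∀ x y, G'.Adj x y → ¬ G.Adj x y → (x = u ∧ y = v) ∨ (x = v ∧ y = u)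
  adj : G'.Adj u v
  Fu : F u = false
  Fv : F v = true
  suv : sg u = sg v
  cross : ∀ y z, G.Adj y z → F y = false → F z = true → P y = true
  hP : ∀ z, P z = true → F z = false ∧ sg z = s
  hPs : ∀ y z, P y = true → P z = true → y = z
  hX : ∀ z, X z = true ↔ (z = u ∧ sg z = !s) ∨ (z = v ∧ sg z = s)

theorem bne_of {a b : Bool} (h : a ≠ b) : a = !b := by
  cases a <;> cases b <;> simp_all

theorem LinkData.valid {G G' : SimpleGraph V} {sg F P X : V → Bool} {s : Bool} {u v : V}
    (h : LinkData G G' sg F P X s u v) (m k : Bool) : Valid G' (newSt sg F P X s m k) := by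
  have hcr : ∀ x y, G'.Adj x y → F x = false → F y = true → x = u ∧ y = v := by
    intro x y hxy hx hy
    by_cases hG : G.Adj x y
    · have := h.common x y hG hxy
      simp_all
    · rcases h.newE x y hxy hG with h1 | h1
      · exact h1
      · rw [h1.1, h.Fv] at hx
        exact absurd hx (by simp)
  refine ⟨?_, ?_, ?_, h.hPs, ?_⟩
  · intro x y hxy
    show xor (sg x) (F x) ≠ xor (sg y) (F y)
    by_cases hG : G.Adj x y
    · have h1 := h.common x y hG hxy
      have h2 := h.proper x y hG
      rw [h1]
      intro h3
      apply h2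
      revert h3
      cases sg x <;> cases sg y <;> cases F y <;> simp
    · rcases h.newE x y hxy hG with h1 | h1
      · rw [h1.1, h1.2, h.Fu, h.Fv, h.suv]
        cases sg v <;> simp
      · rw [h1.1, h1.2, h.Fu, h.Fv, h.suv]
        cases sg v <;> simp
  · intro y z y' z' h1 h2 h3 h4 h5 h6
    have a1 := hcr y z h1 h2 h3
    have a2 := hcr y' z' h4 h5 h6
    exact ⟨a1.1.trans a2.1.symm, a1.2.trans a2.2.symm⟩
  · intro z hz
    have h1 := h.hP z hz
    refine ⟨h1.1, ?_⟩
    show xor (sg z) (F z) = s
    rw [h1.1, h1.2]
    cases s <;> rfl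
  · intro z hz
    have hz' : X z = true := hz
    rcases (h.hX z).1 hz' with h1 | h1
    · refine ⟨?_, v, ?_, ?_⟩
      · show xor (sg z) (F z) = !s
        rw [h1.2, h1.1, h.Fu]
        cases s <;> rfl
      · rw [h1.1]
        exact h.adj
      · show F v = !(F z)
        rw [h1.1, h.Fu, h.Fv]
        rfl
    · refine ⟨?_, u, ?_, ?_⟩
      · show xor (sg z) (F z) = !s
        rw [h1.2, h1.1, h.Fv]
        cases s <;> rfl
      · rw [h1.1]
        exact h.adj.symm
      · show F u = !(F z)
        rw [h1.1, h.Fu, h.Fv]
        rfl

/-- Two adjacent vertices on the same side of the flipped set. -/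
theorem ok_same {a b f p x p' x' s m k : Bool} {d : Bool × Bool} (hab : a ≠ b)
    (h1 : okb a f p x s m k d = true) (h2 : okb b f p' x' s m k d = true) : False := by
  simp only [okb, Bool.and_eq_true, Bool.or_eq_true] at h1 h2
  obtain ⟨⟨⟨h11, h12⟩, -⟩, -⟩ := h1
  obtain ⟨⟨⟨h21, h22⟩, -⟩, -⟩ := h2
  cases f
  · simp at h11 h21
    exact hab (h11.symm.trans h21)
  · simp at h12 h22
    rw [h12] at h22
    apply hab
    simpa using h22

/-- A special vertex `P` outside and a neighbour inside with equal new sides. -/
theorem ok_P {a x p' x' s m k : Bool} {d : Bool × Bool}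
    (h1 : okb s false true x s m k d = true) (h2 : okb a true p' x' s m k d = true)
    (h : a = s) : False := by
  subst h
  simp only [okb, Bool.and_eq_true, Bool.or_eq_true] at h1 h2
  obtain ⟨⟨⟨h11, h12⟩, h13⟩, -⟩ := h1
  obtain ⟨⟨⟨h21, h22⟩, -⟩, -⟩ := h2
  simp at h13 h22
  rw [h13.2] at h22
  simp at h22

/-- A special vertex `X` outside, new sides different. -/
theorem ok_Xu {a b p p' x' s m k : Bool} {d : Bool × Bool}
    (h1 : okb a false p true s m k d = true) (h2 : okb b true p' x' s m k d = true)
    (ha : a = !s) (h : a ≠ b) : False := by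
  have hb : b = s := by
    subst ha
    revert h
    cases b <;> cases s <;> simp
  subst hb
  simp only [okb, Bool.and_eq_true, Bool.or_eq_true] at h1 h2
  obtain ⟨⟨⟨h11, h12⟩, -⟩, h14⟩ := h1
  obtain ⟨⟨⟨h21, h22⟩, -⟩, -⟩ := h2
  simp at h14 h22
  rw [h14.2] at h22
  simp at h22

/-- A special vertex `X` inside, new sides different. -/
theorem ok_Xv {a b p p' x s m k : Bool} {d : Bool × Bool}
    (h1 : okb a false p x s m k d = true) (h2 : okb b true p' true s m k d = true)
    (hb : b = !s) (h : a ≠ b) : False := by
  have ha : a = s := by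
    subst hb
    revert h
    cases a <;> cases s <;> simp
  subst ha
  simp only [okb, Bool.and_eq_true, Bool.or_eq_true] at h1 h2
  obtain ⟨⟨⟨h11, h12⟩, -⟩, -⟩ := h1
  obtain ⟨⟨⟨h21, h22⟩, -⟩, h24⟩ := h2
  simp at h24 h11
  rw [h11] at h24
  simp at h24

theorem LinkData.disj {G G' : SimpleGraph V} {sg F P X : V → Bool} {s : Bool} {u v : V}
    (h : LinkData G G' sg F P X s u v) (m k : Bool) : Disj (G ⊔ G') (newSt sg F P X s m k) := by
  have hv := h.valid m k
  -- crossing pairs
  have key : ∀ x y, (G ⊔ G').Adj x y → F x = false → F y = true → ∀ d,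
      (newSt sg F P X s m k).ok x d = true → (newSt sg F P X s m k).ok y d = true → False := by
    intro x y hxy hx hy d h1 h2
    have h1' : okb (xor (sg x) (F x)) (F x) (P x) (X x) s m k d = true := h1
    have h2' : okb (xor (sg y) (F y)) (F y) (P y) (X y) s m k d = true := h2
    rw [hx] at h1'
    rw [hy] at h2'
    by_cases hG : G.Adj x y
    · have hPx := h.cross x y hG hx hy
      have h3 := h.hP x hPx
      rw [hPx, h3.2] at h1'
      have e1 : xor s false = s := by cases s <;> rfl
      rw [e1] at h1'
      refine ok_P h1' h2' ?_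
      have h4 := h.proper x y hG
      rw [h3.2] at h4
      revert h4
      cases s <;> cases sg y <;> simp
    · have hG' : G'.Adj x y := by
        rcases hxy with h5 | h5
        · exact absurd h5 hG
        · exact h5
      rcases h.newE x y hG' hG with h5 | h5
      · have hne := hv.proper x y hG'
        have hne' : xor (sg x) false ≠ xor (sg y) true := by
          have : xor (sg x) (F x) ≠ xor (sg y) (F y) := hne
          rwa [hx, hy] at this
        by_cases hs : sg u = s
        · -- X v
          have hX : X y = true := by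
            rw [h.hX]
            right
            refine ⟨h5.2, ?_⟩
            rw [h5.2, ← h.suv, hs]
          rw [hX] at h2'
          refine ok_Xv h1' h2' ?_ hne'
          rw [h5.2, ← h.suv, hs]
          cases s <;> rfl
        · have hs' : sg u = !s := bne_of hs
          have hX : X x = true := by
            rw [h.hX]
            left
            refine ⟨h5.1, ?_⟩
            rw [h5.1, hs']
          rw [hX] at h1'
          refine ok_Xu h1' h2' ?_ hne'
          rw [h5.1, hs']
          cases s <;> rfl
      · rw [h5.1, h.Fv] at hx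
        exact absurd hx (by simp)
  intro x y hxy d h1 h2
  cases hx : F x
  · cases hy : F y
    · -- same side
      have hne : xor (sg x) (F x) ≠ xor (sg y) (F y) := by
        by_cases hG : G.Adj x y
        · rw [hx, hy]
          have := h.proper x y hG
          simpa using this
        · have hG' : G'.Adj x y := by
            rcases hxy with h5 | h5
            · exact absurd h5 hG
            · exact h5
          exact hv.proper x y hG'
      have h1' : okb (xor (sg x) (F x)) (F x) (P x) (X x) s m k d = true := h1
      have h2' : okb (xor (sg y) (F y)) (F y) (P y) (X y) s m k d = true := h2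
      have hxy' : F x = F y := by rw [hx, hy]
      rw [hxy'] at h1' hne
      exact ok_same hne h1' h2'
    · exact key x y hxy hx hy d h1 h2
  · cases hy : F y
    · exact key y x hxy.symm hy hx d h2 h1
    · have hne : xor (sg x) (F x) ≠ xor (sg y) (F y) := by
        by_cases hG : G.Adj x y
        · rw [hx, hy]
          have := h.proper x y hG
          simpa using this
        · have hG' : G'.Adj x y := by
            rcases hxy with h5 | h5
            · exact absurd h5 hG
            · exact h5
          exact hv.proper x y hG'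
      have h1' : okb (xor (sg x) (F x)) (F x) (P x) (X x) s m k d = true := h1
      have h2' : okb (xor (sg y) (F y)) (F y) (P y) (X y) s m k d = true := h2
      have hxy' : F x = F y := by rw [hx, hy]
      rw [hxy'] at h1' hne
      exact ok_same hne h1' h2'

theorem Valid.cOld {G : SimpleGraph V} {S : St V} (hS : Valid G S) (z : V) :
    cOld (S.sg z) (S.F z) (S.P z) (S.X z) S.s = true :=
  cOld_of (fun h => hS.hP z h) (fun h => (hS.hX z h).1)

theorem LinkData.cNew {G G' : SimpleGraph V} {sg F P X : V → Bool} {s : Bool} {u v : V}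
    (h : LinkData G G' sg F P X s u v) (z : V) : cNew (sg z) (F z) (P z) (X z) s = true := by
  refine cNew_of (fun h1 => h.hP z h1) ?_ ?_
  · intro h1 h2
    rcases (h.hX z).1 h1 with h3 | h3
    · rw [h3.1, h.Fu] at h2
      exact absurd h2 (by simp)
    · exact h3.2
  · intro h1 h2
    rcases (h.hX z).1 h1 with h3 | h3
    · exact h3.2
    · rw [h3.1, h.Fv] at h2
      exact absurd h2 (by simp)

theorem comp_E0 {G G' : SimpleGraph V} {S : St V} {F P X : V → Bool} {s : Bool} {u v : V}
    (hS : Valid G S) (h : LinkData G G' S.sg F P X s u v)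
    (hc : ∀ z, cE0 (S.F z) (S.P z) (S.X z) (F z) (P z) (X z) = true) :
    Comp S (newSt S.sg F P X s S.m (!S.k)) := by
  intro z
  have h1 := pt_E0 (S.sg z) (S.F z) (S.P z) (S.X z) S.s S.m S.k (F z) (P z) (X z) s
  rw [hS.cOld z, h.cNew z, hc z] at h1
  obtain ⟨d, hd⟩ := ex_spec (by simpa using h1)
  exact ⟨d, by simpa [St.ok, newSt] using hd⟩

theorem comp_E1 {G G' : SimpleGraph V} {S : St V} {F P X : V → Bool} {s : Bool} {u v : V}
    (hS : Valid G S) (h : LinkData G G' S.sg F P X s u v)
    (hc : ∀ z, cE1 (S.F z) (S.P z) (S.X z) (F z) (P z) (X z) = true) :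
    Comp S (newSt S.sg F P X s S.m S.k) := by
  intro z
  have h1 := pt_E1 (S.sg z) (S.F z) (S.P z) (S.X z) S.s S.m S.k (F z) (P z) (X z) s
  rw [hS.cOld z, h.cNew z, hc z] at h1
  obtain ⟨d, hd⟩ := ex_spec (by simpa using h1)
  exact ⟨d, by simpa [St.ok, newSt] using hd⟩

theorem comp_N {G G' : SimpleGraph V} {S : St V} {F P X : V → Bool} {s : Bool} {u v : V}
    (hS : Valid G S) (h : LinkData G G' S.sg F P X s u v) (dl : Bool)
    (hc : ∀ z, cN (S.sg z) (S.F z) (S.P z) (S.X z) (F z) (P z) (X z) dl = true) :
    Comp S (newSt S.sg F P X s (!S.m) (xor S.k (!dl))) := by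
  intro z
  have h1 := pt_N (S.sg z) (S.F z) (S.P z) (S.X z) S.s S.m S.k (F z) (P z) (X z) s dl
  rw [hS.cOld z, h.cNew z, hc z] at h1
  obtain ⟨d, hd⟩ := ex_spec (by simpa using h1)
  exact ⟨d, by simpa [St.ok, newSt] using hd⟩

end Pool.Agent.Q208.TC
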