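import Pool.Agent.Q208.TC.Step

/-!
# Colouring infinite bipartite temporal graphs of grow pace one with four colours
-/

namespace Pool.Agent.Q208.TC

open Classical

variable {V : Type*}

/-- The state after a step in which the old bipartition is also proper for the new snapshot. -/
theorem next_zero {G G' : SimpleGraph V} {S : St V} (hS : Valid G S)
    (h : ∀ x y, G'.Adj x y → S.sg x ≠ S.sg y) : Next G G' S := by
  refine ⟨⟨S.sg, fun _ => false, fun _ => false, fun _ => false, false, S.m, S.k⟩,
    ⟨h, ?_, ?_, ?_, ?_⟩, ?_, ?_⟩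
  · intro y z y' z' _ _ h1
    exact (tf h1 rfl).elim
  · intro z h1
    exact (tf h1 rfl).elim
  · intro y z h1
    exact (tf h1 rfl).elim
  · intro z h1
    exact (tf h1 rfl).elim
  · intro z
    have h1 := pt_Z (S.sg z) (S.F z) (S.P z) (S.X z) S.s S.m S.k false
    rw [hS.cOld z] at h1
    obtain ⟨d, hd⟩ := ex_spec (by simpa using h1)
    exact ⟨d, by simpa [St.ok] using hd⟩
  · intro x y hxy d h1 h2
    have hne : S.sg x ≠ S.sg y := by
      rcases hxy with h3 | h3
      · exact hS.proper x y h3
      · exact h x y h3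
    exact ok_same hne h1 h2

/-- The flipped set of a step joining two components. -/
noncomputable def KK (G : SimpleGraph V) (v : V) : V → Bool :=
  fun z => decide (G.Reachable v z)

theorem KK_true {G : SimpleGraph V} {v z : V} : KK G v z = true ↔ G.Reachable v z := by
  simp [KK]

theorem link_two {G G' : SimpleGraph V} {S : St V} {u v : V} (hS : Valid G S) (sw : Swap G G')
    (auv : G'.Adj u v) (suv : S.sg u = S.sg v) (nr : ¬ G.Reachable u v) :
    LinkData G G' S.sg (KK G v) (fun _ => false) (fun z => decide (z = u)) (!S.sg u) u v where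
  proper := hS.proper
  common := by
    intro x y h1 _
    rw [Bool.eq_iff_iff, KK_true, KK_true]
    exact ⟨fun h4 => h4.trans h1.reachable, fun h4 => h4.trans h1.symm.reachable⟩
  newE := by
    intro x y h1 h2
    exact sw.add x y u v h1 h2 auv (fun h' => nr h'.reachable)
  adj := auv
  Fu := by
    rw [← Bool.not_eq_true, KK_true]
    exact fun h' => nr h'.symm
  Fv := by
    rw [KK_true]
  suv := suv
  cross := by
    intro y z h1 h2 h3
    exfalso
    rw [← Bool.not_eq_true, KK_true] at h2
    rw [KK_true] at h3
    exact h2 (h3.trans h1.symm.reachable)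
  hP := by
    intro z hz
    exact (tf hz rfl).elim
  hPs := by
    intro y z h1 _
    exact (tf h1 rfl).elim
  hX := by
    intro z
    simp only [decide_eq_true_eq]
    constructor
    · intro h1
      left
      refine ⟨h1, ?_⟩
      rw [h1]
      simp
    · intro h1
      rcases h1 with h2 | h2
      · exact h2.1
      · exfalso
        have h3 := h2.2
        rw [h2.1, suv] at h3
        revert h3
        cases S.sg v <;> simp

theorem next_two' {G G' : SimpleGraph V} {S : St V} {u v : V} (hS : Valid G S) (sw : Swap G G')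
    (auv : G'.Adj u v) (suv : S.sg u = S.sg v) (nr : ¬ G.Reachable u v)
    (hv : ∀ x y, G.Reachable v x → G.Adj x y → S.F x = S.F y) : Next G G' S := by
  have L := link_two hS sw auv suv nr
  have hX : ∀ z, KK G v z = true → S.X z = false := by
    intro z hz
    rw [KK_true] at hz
    by_contra hc
    rw [Bool.not_eq_false] at hc
    obtain ⟨w, h1, h2⟩ := hS.X' hc
    exact h2 (hv z w hz h1)
  have hXu : ∀ z, (decide (z = u)) = true → z = u := fun z hz => by simpa using hz
  by_cases hex : ∃ z, S.P z = true ∧ G.Reachable v z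
  · obtain ⟨z0, h0, h0'⟩ := hex
    have hF : ∀ z, KK G v z = true → S.F z = false := by
      intro z hz
      rw [KK_true] at hz
      rw [reach_const hv hz, ← reach_const hv h0']
      exact (hS.hP z0 h0).1
    refine next_E1 hS L ?_ ?_ ?_ ?_ ?_
    · intro z h1 h2
      exact tf h1 (hF z h2)
    · intro z h1 h2
      exact tf h1 (hX z h2)
    · intro z _ h2
      exact tf h2 rfl
    · intro z h1
      have hz := hXu z h1
      subst hz
      refine ⟨L.Fu, ?_⟩
      by_contra hc
      rw [Bool.not_eq_false] at hc
      have := hS.hPs z0 z h0 hc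
      rw [this] at h0'
      exact nr h0'.symm
    · intro z h1
      exact (tf h1 rfl).elim
  · refine next_N hS L (if S.P u = true then S.sg u else !S.sg u) ?_ ?_ ?_ ?_ ?_ ?_ ?_ ?_ ?_
    · intro z h1 h2
      rw [KK_true] at h2
      exact (hex ⟨z, h1, h2⟩).elim
    · intro z h1 h2
      exact (tf h1 (hX z h2)).elim
    · intro z h1
      exact (tf h1 rfl).elim
    · intro z h1 _ h3
      have hz := hXu z h1
      subst hz
      have : ¬ S.P z = true := fun hc => tf h3 (hS.hP z hc).1
      rw [if_neg this]
    · intro z h1 h2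
      have hz := hXu z h1
      subst hz
      exact (tf h2 L.Fu).elim
    · intro z _ h1
      exact (tf h1 rfl).elim
    · intro z h1 h2 _
      have hz := hXu z h2
      subst hz
      rw [if_pos h1]
    · intro z _ h1
      exact (tf h1 rfl).elim
    · intro z h1 h2 _
      have hz := hXu z h2
      subst hz
      have : ¬ S.P z = true := by
        intro hc
        have e1 := (hS.hP z hc).2
        have e2 := (hS.hX z h1).1
        rw [e1] at e2
        revert e2
        cases S.s <;> simp
      rw [if_neg this]

theorem next_two {G G' : SimpleGraph V} {S : St V} {u v : V} (hS : Valid G S) (sw : Swap G G')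
    (auv : G'.Adj u v) (suv : S.sg u = S.sg v) (nr : ¬ G.Reachable u v) : Next G G' S := by
  by_cases hv : ∀ x y, G.Reachable v x → G.Adj x y → S.F x = S.F y
  · exact next_two' hS sw auv suv nr hv
  · refine next_two' hS sw auv.symm suv.symm (fun h => nr h.symm) ?_
    intro x y h1 h2
    by_contra h3
    apply hv
    intro x' y' h1' h2'
    by_contra h3'
    rcases hS.uniq' h2 h3 h2' h3' with h5 | h5
    · rw [← h5.1] at h1'
      exact nr (h1.trans h1'.symm)
    · rw [← h5.2] at h1'
      exact nr ((h1.trans h2.reachable).trans h1'.symm)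

/-- **Step lemma.** -/
theorem step {G G' : SimpleGraph V} {S : St V} (hS : Valid G S) (sw : Swap G G') :
    Next G G' S := by
  by_cases h0 : ∀ x y, G'.Adj x y → S.sg x ≠ S.sg y
  · exact next_zero hS h0
  · push Not at h0
    obtain ⟨u, v, auv, suv⟩ := h0
    by_cases hr : G.Reachable u v
    · have nuv : ¬ G.Adj u v := fun h => hS.proper u v h suv
      obtain ⟨τ, hτ⟩ := sw.bip
      have nr : ¬ (G ⊓ G').Reachable u v := by
        intro h
        have h1 := inf_sg hS.proper hτ h
        have h2 := hτ u v auv
        rw [suv] at h1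
        apply h2
        revert h1
        cases S.sg v <;> cases τ u <;> cases τ v <;> simp
      -- the removed edge
      have ex1 : ∀ a b : V, G.Reachable a b → ¬ (G ⊓ G').Reachable a b →
          ∃ p q, G.Adj p q ∧ ¬ G'.Adj p q ∧ (G ⊓ G').Reachable a p ∧
            ¬ (G ⊓ G').Reachable a q := by
        intro a b hab hnab
        by_contra hcon
        apply hnab
        refine reach_closed (C := fun z => (G ⊓ G').Reachable a z)
          (SimpleGraph.Reachable.refl a) ?_ hab
        intro x y hx hxy
        by_contra hy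
        apply hcon
        refine ⟨x, y, hxy, ?_, hx, hy⟩
        intro hG'
        have h4 : (G ⊓ G').Adj x y := ⟨hxy, hG'⟩
        exact hy (hx.trans h4.reachable)
      obtain ⟨p, q, apq, npq, rup, nuq⟩ := ex1 u v hr nr
      obtain ⟨p', q', apq', npq', rvp', -⟩ := ex1 v u hr.symm (fun h => nr h.symm)
      have rvq : (G ⊓ G').Reachable v q := by
        rcases sw.rem p' q' p q apq' npq' apq npq with h5 | h5
        · exfalso
          rw [h5.1] at rvp'
          exact nr (rup.trans rvp'.symm)
        · rw [← h5.1]
          exact rvp'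
      exact Lab.next ⟨hS, sw, auv, nuv, suv, apq, npq, rup, rvq, nr⟩
    · exact next_two hS sw auv suv hr

/-- **Main theorem**, for infinite sequences of snapshots on an arbitrary vertex set. -/
theorem main (G : ℕ → SimpleGraph V)
    (h0 : ∃ τ : V → Bool, ∀ x y, (G 0).Adj x y → τ x ≠ τ y)
    (h : ∀ j, Swap (G j) (G (j + 1))) :
    ∃ f : ℕ → V → Bool × Bool, ∀ j x y, (G j ⊔ G (j + 1)).Adj x y →
      ∀ a b, (a = j ∨ a = j + 1) → (b = j ∨ b = j + 1) → f a x ≠ f b y := by
  obtain ⟨τ, hτ⟩ := h0
  have hS0 : Valid (G 0) (⟨τ, fun _ => false, fun _ => false, fun _ => false, false, false,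
      false⟩ : St V) := by
    refine ⟨hτ, ?_, ?_, ?_, ?_⟩
    · intro y z y' z' _ _ h1
      exact (tf h1 rfl).elim
    · intro z h1
      exact (tf h1 rfl).elim
    · intro y z h1
      exact (tf h1 rfl).elim
    · intro z h1
      exact (tf h1 rfl).elim
  -- the sequence of states
  have hstep : ∀ j (S : {S : St V // Valid (G j) S}), ∃ S' : {S : St V // Valid (G (j + 1)) S},
      Comp S.1 S'.1 ∧ Disj (G j ⊔ G (j + 1)) S'.1 := by
    intro j S
    obtain ⟨S', h1, h2, h3⟩ := step S.2 (h j)
    exact ⟨⟨S', h1⟩, h2, h3⟩
  choose nx hnx using hstep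
  let Q : (j : ℕ) → {S : St V // Valid (G j) S} := fun j => Nat.rec ⟨_, hS0⟩ (fun j S => nx j S) j
  have hQ : ∀ j, Q (j + 1) = nx j (Q j) := fun j => rfl
  have hcomp : ∀ j, Comp (Q j).1 (Q (j + 1)).1 := by
    intro j
    rw [hQ j]
    exact (hnx j (Q j)).1
  have hdis : ∀ j, Disj (G j ⊔ G (j + 1)) (Q (j + 1)).1 := by
    intro j
    rw [hQ j]
    exact (hnx j (Q j)).2
  choose f hf using hcomp
  refine ⟨f, ?_⟩
  intro j x y hxy a b ha hb
  have key : ∀ a, (a = j ∨ a = j + 1) → ∀ z, (Q (j + 1)).1.ok z (f a z) = true := by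
    intro a ha z
    rcases ha with ha | ha
    · rw [ha]
      exact (hf j z).2
    · rw [ha]
      exact (hf (j + 1) z).1
  intro heq
  refine hdis j x y hxy (f a x) (key a ha x) ?_
  rw [heq]
  exact key b hb y

end Pool.Agent.Q208.TC
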