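import Pool.Agent.Q208.TC.Link

/-!
# The step lemma for temporal graphs
-/

namespace Pool.Agent.Q208.TC

open Classical

variable {V : Type*}

/-- The new edges and the removed edges are unique, the new snapshot is bipartite. -/
structure Swap (G G' : SimpleGraph V) : Prop where
  add : ∀ x y x' y', G'.Adj x y → ¬ G.Adj x y → G'.Adj x' y' → ¬ G.Adj x' y' →
    (x = x' ∧ y = y') ∨ (x = y' ∧ y = x')
  rem : ∀ x y x' y', G.Adj x y → ¬ G'.Adj x y → G.Adj x' y' → ¬ G'.Adj x' y' →
    (x = x' ∧ y = y') ∨ (x = y' ∧ y = x')
  bip : ∃ τ : V → Bool, ∀ x y, G'.Adj x y → τ x ≠ τ y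

theorem inf_sg {G G' : SimpleGraph V} {sg τ : V → Bool}
    (h1 : ∀ x y, G.Adj x y → sg x ≠ sg y) (h2 : ∀ x y, G'.Adj x y → τ x ≠ τ y) {x y : V}
    (h : (G ⊓ G').Reachable x y) : xor (sg x) (τ x) = xor (sg y) (τ y) := by
  obtain ⟨w⟩ := h
  induction w with
  | nil => rfl
  | @cons a b c hab _ ih =>
    rw [← ih]
    have e1 := h1 a b hab.1
    have e2 := h2 a b hab.2
    revert e1 e2
    cases sg a <;> cases sg b <;> cases τ a <;> cases τ b <;> simp

/-- A function which does not change along edges within a component is constant there. -/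
theorem reach_const {G : SimpleGraph V} {F : V → Bool} {w z : V}
    (h : ∀ x y, G.Reachable w x → G.Adj x y → F x = F y) (hz : G.Reachable w z) :
    F z = F w := by
  have key : ∀ a b : V, G.Walk a b → G.Reachable w a → F b = F a := by
    intro a b p
    induction p with
    | nil => intro _; rfl
    | @cons a b c hab _ ih =>
      intro ha
      rw [ih (ha.trans hab.reachable), h a b ha hab]
  obtain ⟨p⟩ := hz
  exact key w z p (SimpleGraph.Reachable.refl w)

/-- A set closed under adjacency contains the component. -/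
theorem reach_closed {G : SimpleGraph V} {C : V → Prop} {w z : V} (hw : C w)
    (h : ∀ x y, C x → G.Adj x y → C y) (hz : G.Reachable w z) : C z := by
  have key : ∀ a b : V, G.Walk a b → C a → C b := by
    intro a b p
    induction p with
    | nil => exact fun h => h
    | @cons a b c hab _ ih => exact fun ha => ih (h a b ha hab)
  obtain ⟨p⟩ := hz
  exact key w z p hw

/-- Labelled data of an odd swap inside one component. -/
structure Lab (G G' : SimpleGraph V) (S : St V) (u v p q : V) : Prop where
  val : Valid G S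
  sw : Swap G G'
  auv : G'.Adj u v
  nuv : ¬ G.Adj u v
  suv : S.sg u = S.sg v
  apq : G.Adj p q
  npq : ¬ G'.Adj p q
  rup : (G ⊓ G').Reachable u p
  rvq : (G ⊓ G').Reachable v q
  nr : ¬ (G ⊓ G').Reachable u v

theorem Lab.swap {G G' : SimpleGraph V} {S : St V} {u v p q : V} (h : Lab G G' S u v p q) :
    Lab G G' S v u q p :=
  ⟨h.val, h.sw, h.auv.symm, fun h' => h.nuv h'.symm, h.suv.symm, h.apq.symm,
    fun h' => h.npq h'.symm, h.rvq, h.rup, fun h' => h.nr h'.symm⟩

/-- The flipped set of an odd swap. -/
noncomputable def FF (G G' : SimpleGraph V) (v : V) : V → Bool :=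
  fun z => decide ((G ⊓ G').Reachable v z)

noncomputable def PP (p : V) : V → Bool := fun z => decide (z = p)

noncomputable def XX (sg : V → Bool) (s : Bool) (u v : V) : V → Bool :=
  fun z => decide ((z = u ∧ sg z = !s) ∨ (z = v ∧ sg z = s))

theorem FF_true {G G' : SimpleGraph V} {v z : V} :
    FF G G' v z = true ↔ (G ⊓ G').Reachable v z := by simp [FF]

theorem PP_true {p z : V} : PP p z = true ↔ z = p := by simp [PP]

theorem Lab.Fu {G G' : SimpleGraph V} {S : St V} {u v p q : V} (h : Lab G G' S u v p q) :
    FF G G' v u = false := by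
  rw [← Bool.not_eq_true, FF_true]
  exact fun h' => h.nr h'.symm

theorem Lab.Fv {G G' : SimpleGraph V} {S : St V} {u v p q : V} (_h : Lab G G' S u v p q) :
    FF G G' v v = true := by
  rw [FF_true]

theorem Lab.Fp {G G' : SimpleGraph V} {S : St V} {u v p q : V} (h : Lab G G' S u v p q) :
    FF G G' v p = false := by
  rw [← Bool.not_eq_true, FF_true]
  exact fun h' => h.nr (h.rup.trans h'.symm)

theorem Lab.link {G G' : SimpleGraph V} {S : St V} {u v p q : V} (h : Lab G G' S u v p q) :
    LinkData G G' S.sg (FF G G' v) (PP p) (XX S.sg (S.sg p) u v) (S.sg p) u v where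
  proper := h.val.proper
  common := by
    intro x y h1 h2
    rw [Bool.eq_iff_iff, FF_true, FF_true]
    have h3 : (G ⊓ G').Adj x y := ⟨h1, h2⟩
    exact ⟨fun h4 => h4.trans h3.reachable, fun h4 => h4.trans h3.symm.reachable⟩
  newE := by
    intro x y h1 h2
    exact h.sw.add x y u v h1 h2 h.auv h.nuv
  adj := h.auv
  Fu := h.Fu
  Fv := h.Fv
  suv := h.suv
  cross := by
    intro y z h1 h2 h3
    rw [PP_true]
    by_cases h4 : G'.Adj y z
    · exfalso
      rw [← Bool.not_eq_true, FF_true] at h2
      rw [FF_true] at h3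
      have h5 : (G ⊓ G').Adj y z := ⟨h1, h4⟩
      exact h2 (h3.trans h5.symm.reachable)
    · rcases h.sw.rem y z p q h1 h4 h.apq h.npq with h5 | h5
      · exact h5.1
      · exfalso
        rw [h5.1, ← Bool.not_eq_true, FF_true] at h2
        exact h2 h.rvq
  hP := by
    intro z hz
    rw [PP_true] at hz
    subst hz
    exact ⟨h.Fp, rfl⟩
  hPs := by
    intro y z h1 h2
    rw [PP_true] at h1 h2
    rw [h1, h2]
  hX := by
    intro z
    simp [XX]

/-- The conclusion of the step lemma. -/
def Next (G G' : SimpleGraph V) (S : St V) : Prop :=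
  ∃ S' : St V, Valid G' S' ∧ Comp S S' ∧ Disj (G ⊔ G') S'

theorem Valid.uniq' {G : SimpleGraph V} {S : St V} (hS : Valid G S) {x y x' y' : V}
    (h1 : G.Adj x y) (h2 : S.F x ≠ S.F y) (h3 : G.Adj x' y') (h4 : S.F x' ≠ S.F y') :
    (x = x' ∧ y = y') ∨ (x = y' ∧ y = x') := by
  cases hx : S.F x
  · have hy : S.F y = true := by
      rw [hx] at h2
      cases hy : S.F y
      · exact absurd hy.symm h2
      · rfl
    cases hx' : S.F x'
    · have hy' : S.F y' = true := by
        rw [hx'] at h4
        cases hy' : S.F y'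
        · exact absurd hy'.symm h4
        · rfl
      exact Or.inl (hS.uniq x y x' y' h1 hx hy h3 hx' hy')
    · have hy' : S.F y' = false := by
        rw [hx'] at h4
        cases hy' : S.F y'
        · rfl
        · exact absurd hy'.symm h4
      exact Or.inr (hS.uniq x y y' x' h1 hx hy h3.symm hy' hx')
  · have hy : S.F y = false := by
      rw [hx] at h2
      cases hy : S.F y
      · rfl
      · exact absurd hy.symm h2
    cases hx' : S.F x'
    · have hy' : S.F y' = true := by
        rw [hx'] at h4
        cases hy' : S.F y'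
        · exact absurd hy'.symm h4
        · rfl
      have := hS.uniq y x x' y' h1.symm hy hx h3 hx' hy'
      exact Or.inr ⟨this.2, this.1⟩
    · have hy' : S.F y' = false := by
        rw [hx'] at h4
        cases hy' : S.F y'
        · rfl
        · exact absurd hy'.symm h4
      have := hS.uniq y x y' x' h1.symm hy hx h3.symm hy' hx'
      exact Or.inl ⟨this.2, this.1⟩

theorem Valid.X' {G : SimpleGraph V} {S : St V} (hS : Valid G S) {z : V} (hz : S.X z = true) :
    ∃ w, G.Adj z w ∧ S.F z ≠ S.F w := by
  obtain ⟨-, w, h1, h2⟩ := hS.hX z hz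
  refine ⟨w, h1, ?_⟩
  rw [h2]
  cases S.F z <;> simp

/-- The flipped set is trivial on the common component of `w`. -/
def PureAt (G G' : SimpleGraph V) (S : St V) (w : V) : Prop :=
  ∀ z, (G ⊓ G').Reachable w z → S.F z = S.F w

theorem Lab.pure_or {G G' : SimpleGraph V} {S : St V} {u v p q : V} (h : Lab G G' S u v p q) :
    PureAt G G' S u ∨ PureAt G G' S v := by
  have aux : ∀ w, ¬ PureAt G G' S w → ∃ x y, (G ⊓ G').Reachable w x ∧ (G ⊓ G').Adj x y ∧
      S.F x ≠ S.F y := by
    intro w hw
    by_contra hcon
    apply hw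
    intro z hz
    refine reach_const (fun x y h1 h2 => ?_) hz
    by_contra h3
    exact hcon ⟨x, y, h1, h2, h3⟩
  by_contra hcon
  rw [not_or] at hcon
  obtain ⟨x, y, h1, h2, h3⟩ := aux u hcon.1
  obtain ⟨x', y', h1', h2', h3'⟩ := aux v hcon.2
  rcases h.val.uniq' h2.1 h3 h2'.1 h3' with h5 | h5
  · rw [← h5.1] at h1'
    exact h.nr (h1.trans h1'.symm)
  · rw [← h5.2] at h1'
    exact h.nr ((h1.trans h2.reachable).trans h1'.symm)

theorem Lab.X_not {G G' : SimpleGraph V} {S : St V} {u v p q : V} (h : Lab G G' S u v p q)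
    (hpq : S.F p = S.F q) {w z : V} (hw : PureAt G G' S w) (hz : (G ⊓ G').Reachable w z) :
    S.X z = false := by
  by_contra hX
  rw [Bool.not_eq_false] at hX
  obtain ⟨y, h1, h2⟩ := h.val.X' hX
  by_cases h3 : G'.Adj z y
  · have h4 : (G ⊓ G').Adj z y := ⟨h1, h3⟩
    apply h2
    rw [hw z hz, hw y (hz.trans h4.reachable)]
  · rcases h.sw.rem z y p q h1 h3 h.apq h.npq with h5 | h5
    · rw [h5.1, h5.2] at h2
      exact h2 hpq
    · rw [h5.1, h5.2] at h2
      exact h2 hpq.symm

theorem XX_cases {sg : V → Bool} {s : Bool} {u v z : V} (h : XX sg s u v z = true) :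
    (z = u ∧ sg z = !s) ∨ (z = v ∧ sg z = s) := by
  simpa [XX] using h

theorem ne_of_F {f : V → Bool} {z w : V} (h1 : f z = true) (h2 : f w = false) : z ≠ w := by
  intro h
  rw [h, h2] at h1
  exact absurd h1 (by simp)

theorem tf {b : Bool} (h1 : b = true) (h2 : b = false) : False := by
  rw [h1] at h2
  exact absurd h2 (by simp)

theorem next_E0 {G G' : SimpleGraph V} {S : St V} {F P X : V → Bool} {s : Bool} {u v : V}
    (hS : Valid G S) (h : LinkData G G' S.sg F P X s u v)
    (h1 : ∀ z, S.P z = true → F z = true → False)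
    (h2 : ∀ z, S.P z = true → P z = true → False)
    (h3 : ∀ z, X z = true → S.X z = false ∧ S.F z = F z) : Next G G' S :=
  ⟨_, h.valid _ _, comp_E0 hS h (fun z => cE0_of (h1 z) (h2 z) (h3 z)), h.disj _ _⟩

theorem next_E1 {G G' : SimpleGraph V} {S : St V} {F P X : V → Bool} {s : Bool} {u v : V}
    (hS : Valid G S) (h : LinkData G G' S.sg F P X s u v)
    (h1 : ∀ z, S.F z = true → F z = true → False)
    (h2 : ∀ z, S.X z = true → F z = true → False)
    (h3 : ∀ z, S.X z = true → P z = true → False)
    (h4 : ∀ z, X z = true → F z = false ∧ S.P z = false)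
    (h5 : ∀ z, P z = true → S.F z = true → False) : Next G G' S :=
  ⟨_, h.valid _ _, comp_E1 hS h (fun z => cE1_of (h1 z) (h2 z) (h3 z) (h4 z) (h5 z)), h.disj _ _⟩

theorem next_N {G G' : SimpleGraph V} {S : St V} {F P X : V → Bool} {s : Bool} {u v : V}
    (hS : Valid G S) (h : LinkData G G' S.sg F P X s u v) (dl : Bool)
    (h1 : ∀ z, S.P z = true → F z = true → dl = !S.sg z)
    (h2 : ∀ z, S.X z = true → F z = true → dl = S.sg z)
    (h3 : ∀ z, P z = true → S.F z = true → dl = S.sg z)
    (h4 : ∀ z, X z = true → F z = false → S.F z = true → dl = !S.sg z)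
    (h5 : ∀ z, X z = true → F z = true → S.F z = true ∧ dl = !S.sg z)
    (h6 : ∀ z, S.P z = true → P z = true → dl = !S.sg z)
    (h7 : ∀ z, S.P z = true → X z = true → F z = false → dl = S.sg z)
    (h8 : ∀ z, S.X z = true → P z = true → dl = S.sg z)
    (h9 : ∀ z, S.X z = true → X z = true → F z = false → dl = !S.sg z) : Next G G' S :=
  ⟨_, h.valid _ _, comp_N hS h dl (fun z => cN_of (h1 z) (h2 z) (h3 z) (h4 z) (h5 z) (h6 z)
    (h7 z) (h8 z) (h9 z)), h.disj _ _⟩

theorem nb {a b : Bool} (h : a ≠ b) : b = !a := by
  cases a <;> cases b <;> simp_all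

theorem Lab.caseI {G G' : SimpleGraph V} {S : St V} {u v p q : V} (h : Lab G G' S u v p q)
    (hp : S.F p = true) (hq : S.F q = true) (hv : PureAt G G' S v) : Next G G' S := by
  have hpq : S.F p = S.F q := by rw [hp, hq]
  have hFv : S.F v = true := by rw [← hv q h.rvq, hq]
  have hsub : ∀ z, FF G G' v z = true → S.F z = true := by
    intro z hz
    rw [FF_true] at hz
    rw [hv z hz, hFv]
  have hXn : ∀ z, FF G G' v z = true → S.X z = false := by
    intro z hz
    rw [FF_true] at hz
    exact h.X_not hpq hv hz
  have hPn : S.P p = false := by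
    by_contra hc
    rw [Bool.not_eq_false] at hc
    exact tf hp (h.val.hP p hc).1
  by_cases hs : S.sg u = S.sg p
  · -- X = {v}
    refine next_E0 h.val h.link ?_ ?_ ?_
    · intro z h1 h2
      exact tf (hsub z h2) (h.val.hP z h1).1
    · intro z h1 h2
      rw [PP_true] at h2
      rw [h2] at h1
      exact tf h1 hPn
    · intro z h1
      rcases XX_cases h1 with h2 | h2
      · exfalso
        rw [h2.1, hs] at h2
        have := h2.2
        revert this
        cases S.sg p <;> simp
      · rw [h2.1]
        exact ⟨hXn v h.Fv, by rw [hFv, h.Fv]⟩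
  · have hs' : S.sg p = !S.sg u := nb hs
    by_cases hu : S.F u = true ∨ S.X u = true
    · have hPu : S.P u = false := by
        by_contra hc
        rw [Bool.not_eq_false] at hc
        rcases hu with hu | hu
        · exact tf hu (h.val.hP u hc).1
        · have e1 := (h.val.hP u hc).2
          have e2 := (h.val.hX u hu).1
          rw [e1] at e2
          revert e2
          cases S.s <;> simp
      have hXu : ∀ z, XX S.sg (S.sg p) u v z = true → z = u := by
        intro z hz
        rcases XX_cases hz with h2 | h2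
        · exact h2.1
        · exfalso
          rw [h2.1, ← h.suv] at h2
          exact hs h2.2
      refine next_N h.val h.link (S.sg p) ?_ ?_ ?_ ?_ ?_ ?_ ?_ ?_ ?_
      · intro z h1 h2
        exact (tf (hsub z h2) (h.val.hP z h1).1).elim
      · intro z h1 h2
        exact (tf h1 (hXn z h2)).elim
      · intro z h1 _
        rw [PP_true] at h1
        rw [h1]
      · intro z h1 _ _
        rw [hXu z h1, hs']
      · intro z h1 h2
        rw [hXu z h1, h.Fu] at h2
        exact (tf h2 rfl).elim
      · intro z h1 h2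
        rw [PP_true] at h2
        rw [h2] at h1
        exact (tf h1 hPn).elim
      · intro z h1 h2 _
        rw [hXu z h2] at h1
        exact (tf h1 hPu).elim
      · intro z _ h1
        rw [PP_true] at h1
        rw [h1]
      · intro z _ h1 _
        rw [hXu z h1, hs']
    · rw [not_or] at hu
      refine next_E0 h.val h.link ?_ ?_ ?_
      · intro z h1 h2
        exact tf (hsub z h2) (h.val.hP z h1).1
      · intro z h1 h2
        rw [PP_true] at h2
        rw [h2] at h1
        exact tf h1 hPn
      · intro z h1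
        rcases XX_cases h1 with h2 | h2
        · rw [h2.1]
          refine ⟨by simpa using hu.2, ?_⟩
          rw [h.Fu]
          simpa using hu.1
        · exfalso
          rw [h2.1, ← h.suv] at h2
          exact hs h2.2

theorem Lab.caseII {G G' : SimpleGraph V} {S : St V} {u v p q : V} (h : Lab G G' S u v p q)
    (hp : S.F p = false) (hq : S.F q = false) (hs : S.sg u ≠ S.sg p)
    (hv : PureAt G G' S v) : Next G G' S := by
  have hpq : S.F p = S.F q := by rw [hp, hq]
  have hFv : S.F v = false := by rw [← hv q h.rvq, hq]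
  have hsub : ∀ z, FF G G' v z = true → S.F z = false := by
    intro z hz
    rw [FF_true] at hz
    rw [hv z hz, hFv]
  have hXn : ∀ z, FF G G' v z = true → S.X z = false := by
    intro z hz
    rw [FF_true] at hz
    exact h.X_not hpq hv hz
  have hs' : S.sg p = !S.sg u := nb hs
  have hXu : ∀ z, XX S.sg (S.sg p) u v z = true → z = u := by
    intro z hz
    rcases XX_cases hz with h2 | h2
    · exact h2.1
    · exfalso
      rw [h2.1, ← h.suv] at h2
      exact hs h2.2
  by_cases hPu : S.P u = true
  · refine next_E0 h.val h.link ?_ ?_ ?_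
    · intro z h1 h2
      have h3 := h.val.hPs z u h1 hPu
      rw [h3] at h2
      exact tf h2 h.Fu
    · intro z h1 h2
      have h3 := h.val.hPs z u h1 hPu
      rw [PP_true] at h2
      apply hs
      rw [← h3, h2]
    · intro z h1
      rw [hXu z h1]
      refine ⟨?_, ?_⟩
      · by_contra hc
        rw [Bool.not_eq_false] at hc
        have e1 := (h.val.hP u hPu).2
        have e2 := (h.val.hX u hc).1
        rw [e1] at e2
        revert e2
        cases S.s <;> simp
      · rw [h.Fu, (h.val.hP u hPu).1]
  · rw [Bool.not_eq_true] at hPu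
    by_cases hXp : S.X p = true
    · have hsp := (h.val.hX p hXp).1
      refine next_N h.val h.link (S.sg p) ?_ ?_ ?_ ?_ ?_ ?_ ?_ ?_ ?_
      · intro z h1 _
        rw [(h.val.hP z h1).2, hsp]
      · intro z h1 h2
        exact (tf h1 (hXn z h2)).elim
      · intro z h1 _
        rw [PP_true] at h1
        rw [h1]
      · intro z h1 _ _
        rw [hXu z h1, hs']
      · intro z h1 h2
        rw [hXu z h1, h.Fu] at h2
        exact (tf h2 rfl).elim
      · intro z h1 h2
        rw [PP_true] at h2
        rw [h2] at h1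
        exfalso
        have e1 := (h.val.hP p h1).2
        rw [e1] at hsp
        revert hsp
        cases S.s <;> simp
      · intro z h1 h2 _
        rw [hXu z h2] at h1
        exact (tf h1 hPu).elim
      · intro z _ h1
        rw [PP_true] at h1
        rw [h1]
      · intro z _ h1 _
        rw [hXu z h1, hs']
    · rw [Bool.not_eq_true] at hXp
      refine next_E1 h.val h.link ?_ ?_ ?_ ?_ ?_
      · intro z h1 h2
        exact tf h1 (hsub z h2)
      · intro z h1 h2
        exact tf h1 (hXn z h2)
      · intro z h1 h2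
        rw [PP_true] at h2
        rw [h2] at h1
        exact tf h1 hXp
      · intro z h1
        rw [hXu z h1]
        exact ⟨h.Fu, hPu⟩
      · intro z h1 h2
        rw [PP_true] at h1
        rw [h1] at h2
        exact tf h2 hp

theorem Lab.caseIII {G G' : SimpleGraph V} {S : St V} {u v p q : V} (h : Lab G G' S u v p q)
    (hp : S.F p = false) (hq : S.F q = false) (hs : S.sg u ≠ S.sg p)
    (hu : PureAt G G' S u) : Next G G' S := by
  have hpq : S.F p = S.F q := by rw [hp, hq]
  have hFu : S.F u = false := by rw [← hu p h.rup, hp]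
  have hXu0 : S.X u = false := h.X_not hpq hu (SimpleGraph.Reachable.refl u)
  have hXp0 : S.X p = false := h.X_not hpq hu h.rup
  have hXu : ∀ z, XX S.sg (S.sg p) u v z = true → z = u := by
    intro z hz
    rcases XX_cases hz with h2 | h2
    · exact h2.1
    · exfalso
      rw [h2.1, ← h.suv] at h2
      exact hs h2.2
  by_cases hex : ∃ z, S.P z = true ∧ (FF G G' v z = true ∨ z = p)
  · obtain ⟨z0, hz0, hz0'⟩ := hex
    have hne : z0 ≠ u := by
      intro hc
      rcases hz0' with h1 | h1
      · rw [hc] at h1
        exact tf h1 h.Fu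
      · apply hs
        rw [← hc, h1]
    have hs0 := (h.val.hP z0 hz0).2
    refine next_N h.val h.link (!S.s) ?_ ?_ ?_ ?_ ?_ ?_ ?_ ?_ ?_
    · intro z h1 _
      rw [(h.val.hP z h1).2]
    · intro z h1 _
      rw [(h.val.hX z h1).1]
    · intro z h1 h2
      rw [PP_true] at h1
      rw [h1] at h2
      exact (tf h2 hp).elim
    · intro z h1 _ h2
      rw [hXu z h1] at h2
      exact (tf h2 hFu).elim
    · intro z h1 h2
      rw [hXu z h1, h.Fu] at h2
      exact (tf h2 rfl).elim
    · intro z h1 _
      rw [(h.val.hP z h1).2]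
    · intro z h1 h2 _
      exfalso
      apply hne
      rw [h.val.hPs z0 z hz0 h1, hXu z h2]
    · intro z h1 _
      rw [(h.val.hX z h1).1]
    · intro z h1 h2 _
      rw [hXu z h2] at h1
      exact (tf h1 hXu0).elim
  · refine next_E0 h.val h.link ?_ ?_ ?_
    · intro z h1 h2
      exact hex ⟨z, h1, Or.inl h2⟩
    · intro z h1 h2
      rw [PP_true] at h2
      exact hex ⟨z, h1, Or.inr h2⟩
    · intro z h1
      rw [hXu z h1]
      exact ⟨hXu0, by rw [hFu, h.Fu]⟩

theorem Lab.caseIV {G G' : SimpleGraph V} {S : St V} {u v p q : V} (h : Lab G G' S u v p q)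
    (hp : S.F p = false) (hq : S.F q = true) : Next G G' S := by
  have hpq : S.F p ≠ S.F q := by rw [hp, hq]; simp
  -- every crossing edge is `p q`
  have hcr : ∀ x y, G.Adj x y → S.F x ≠ S.F y → (x = p ∧ y = q) ∨ (x = q ∧ y = p) :=
    fun x y h1 h2 => h.val.uniq' h1 h2 h.apq hpq
  have hpure : ∀ w, PureAt G G' S w := by
    intro w z hz
    refine reach_const (fun x y _ h2 => ?_) hz
    by_contra h3
    rcases hcr x y h2.1 h3 with h4 | h4
    · rw [h4.1, h4.2] at h2
      exact h.npq h2.2
    · rw [h4.1, h4.2] at h2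
      exact h.npq h2.2.symm
  have hFv : S.F v = true := by rw [← hpure v q h.rvq, hq]
  have hFu : S.F u = false := by rw [← hpure u p h.rup, hp]
  have hsub : ∀ z, FF G G' v z = true → S.F z = true := by
    intro z hz
    rw [FF_true] at hz
    rw [hpure v z hz, hFv]
  have hXpq : ∀ z, S.X z = true → z = p ∨ z = q := by
    intro z hz
    obtain ⟨w, h1, h2⟩ := h.val.X' hz
    rcases hcr z w h1 h2 with h3 | h3
    · exact Or.inl h3.1
    · exact Or.inr h3.1
  have hneq : S.sg p ≠ S.sg q := h.val.proper p q h.apq
  have huq : u ≠ q := by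
    intro hc
    exact h.nr (hc ▸ h.rvq.symm)
  have hvp : v ≠ p := by
    intro hc
    exact h.nr (hc ▸ h.rup)
  by_cases hPp : S.P p = true
  · have hsp := (h.val.hP p hPp).2
    refine next_N h.val h.link (!S.sg p) ?_ ?_ ?_ ?_ ?_ ?_ ?_ ?_ ?_
    · intro z h1 h2
      exact (tf (hsub z h2) (h.val.hP z h1).1).elim
    · intro z h1 _
      rw [(h.val.hX z h1).1, hsp]
    · intro z h1 h2
      rw [PP_true] at h1
      rw [h1] at h2
      exact (tf h2 hp).elim
    · intro z h1 h2 h3
      rcases XX_cases h1 with h4 | h4
      · rw [h4.1] at h3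
        exact (tf h3 hFu).elim
      · rw [h4.1, h.Fv] at h2
        exact (tf rfl h2).elim
    · intro z h1 h2
      rcases XX_cases h1 with h4 | h4
      · rw [h4.1, h.Fu] at h2
        exact (tf h2 rfl).elim
      · refine ⟨?_, ?_⟩
        · rw [h4.1, hFv]
        · rw [h4.2]
    · intro z h1 h2
      rw [PP_true] at h2
      rw [h2]
    · intro z h1 h2 h3
      have hzp := h.val.hPs z p h1 hPp
      rcases XX_cases h2 with h4 | h4
      · exfalso
        have h5 := h4.2
        rw [hzp] at h5
        revert h5
        cases S.sg p <;> simp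
      · rw [h4.1, h.Fv] at h3
        exact (tf rfl h3).elim
    · intro z h1 h2
      rw [PP_true] at h2
      rw [h2] at h1
      exfalso
      have e2 := (h.val.hX p h1).1
      rw [hsp] at e2
      revert e2
      cases S.s <;> simp
    · intro z h1 h2 h3
      rcases XX_cases h2 with h4 | h4
      · exfalso
        rcases hXpq z h1 with h5 | h5
        · have h6 := h4.2
          rw [h5] at h6
          revert h6
          cases S.sg p <;> simp
        · exact huq (h4.1.symm.trans h5)
      · rw [h4.1, h.Fv] at h3
        exact (tf rfl h3).elim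
  · rw [Bool.not_eq_true] at hPp
    refine next_E0 h.val h.link ?_ ?_ ?_
    · intro z h1 h2
      exact tf (hsub z h2) (h.val.hP z h1).1
    · intro z h1 h2
      rw [PP_true] at h2
      rw [h2] at h1
      exact tf h1 hPp
    · intro z h1
      rcases XX_cases h1 with h2 | h2
      · refine ⟨?_, ?_⟩
        · by_contra hc
          rw [Bool.not_eq_false] at hc
          rcases hXpq z hc with h5 | h5
          · have h6 := h2.2
            rw [h5] at h6
            revert h6
            cases S.sg p <;> simp
          · exact huq (h2.1.symm.trans h5)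
        · rw [h2.1, hFu, h.Fu]
      · refine ⟨?_, ?_⟩
        · by_contra hc
          rw [Bool.not_eq_false] at hc
          rcases hXpq z hc with h5 | h5
          · exact hvp (h2.1.symm.trans h5)
          · have h6 := h2.2
            rw [h5] at h6
            exact hneq h6.symm
        · rw [h2.1, hFv, h.Fv]

theorem Lab.next {G G' : SimpleGraph V} {S : St V} {u v p q : V} (h : Lab G G' S u v p q) :
    Next G G' S := by
  cases hp : S.F p
  · cases hq : S.F q
    · by_cases hs : S.sg u ≠ S.sg p
      · rcases h.pure_or with h1 | h1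
        · exact h.caseIII hp hq hs h1
        · exact h.caseII hp hq hs h1
      · rw [not_not] at hs
        have hs' : S.sg v ≠ S.sg q := by
          rw [← h.suv, hs]
          exact h.val.proper p q h.apq
        rcases h.pure_or with h1 | h1
        · exact h.swap.caseII hq hp hs' h1
        · exact h.swap.caseIII hq hp hs' h1
    · exact h.caseIV hp hq
  · cases hq : S.F q
    · exact h.swap.caseIV hq hp
    · rcases h.pure_or with h1 | h1
      · exact h.swap.caseI hq hp h1
      · exact h.caseI hp hq h1

end Pool.Agent.Q208.TC
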